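import Mathlib
import Pool.Agent.H30.RK.Stm

/-!
# Module OUT of project RK (statement by helper30)
-/

set_option autoImplicit false

namespace Pool.Agent.H59.RK

open Pool.Agent.H30.RK

theorem ker_le_normalizer {X : Type} [Group X] {𝒮 : Set (Subgroup X)} {S : Subgroup X}
    (hS : S ∈ 𝒮) : ker X 𝒮 ≤ Subgroup.normalizer (S : Set X) := by
  intro x hx
  exact Subgroup.mem_normalizer_iff_map_conj_eq.mpr (hx S hS)

/-- an element of the derived series acts on `S` as an element of `S` -/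
theorem exists_inner {X : Type} [Group X] {𝒮 : Set (Subgroup X)} {S : Subgroup X}
    (hS : S ∈ 𝒮) (l : ℕ)
    (hl : derivedSeries (MulAut S) l ≤ (MulAut.conj : S →* MulAut S).range)
    (x : ker X 𝒮) (hx : x ∈ derivedSeries (ker X 𝒮) l) :
    ∃ s ∈ S, ∀ y ∈ S, (x : X) * y * (x : X)⁻¹ = s * y * s⁻¹ := by
  let φ : ker X 𝒮 →* MulAut S :=
    S.normalizerMonoidHom.comp (Subgroup.inclusion (ker_le_normalizer hS))
  have h1 : φ x ∈ derivedSeries (MulAut S) l :=
    map_derivedSeries_le_derivedSeries φ l (Subgroup.mem_map_of_mem φ hx)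
  obtain ⟨s, hs⟩ := hl h1
  refine ⟨s, s.2, ?_⟩
  intro y hy
  have h2 := congrArg (fun ψ : MulAut S => ((ψ ⟨y, hy⟩ : S) : X)) hs
  simp only [MulAut.conj_apply] at h2
  have h3 : ((φ x ⟨y, hy⟩ : S) : X) = (x : X) * y * (x : X)⁻¹ := rfl
  rw [← h3, ← h2]
  simp

theorem out : S_OUT := by
  intro X _ _ 𝒮 hS hout
  classical
  have hfin : 𝒮.Finite := Set.toFinite 𝒮
  obtain ⟨l, hl⟩ : ∃ l : ℕ, ∀ S ∈ 𝒮,
      derivedSeries (MulAut S) l ≤ (MulAut.conj : S →* MulAut S).range := by
    choose! f hf using hout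
    refine ⟨hfin.toFinset.sup f, ?_⟩
    intro S hS'
    refine le_trans (derivedSeries_antitone _ ?_) (hf S hS')
    exact Finset.le_sup (hfin.mem_toFinset.mpr hS')
  refine ⟨l, ?_⟩
  rintro _ ⟨x, hx, rfl⟩
  have key : ∀ 𝒟 : Finset (Subgroup X), (∀ S ∈ 𝒟, S ∈ 𝒮) → ∃ n ∈ sSup 𝒮,
      (∀ S ∈ 𝒟, ∀ y ∈ S, (x : X) * y * (x : X)⁻¹ = n * y * n⁻¹) ∧
      (∀ S ∈ 𝒮, S ∉ 𝒟 → ∀ y ∈ S, n * y = y * n) := by
    intro 𝒟
    induction 𝒟 using Finset.induction_on with
    | empty =>
      intro _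
      exact ⟨1, one_mem _, by simp, by simp⟩
    | insert S 𝒟 hSD ih =>
      intro hD
      obtain ⟨n, hn, h1, h2⟩ := ih (fun T hT => hD T (Finset.mem_insert_of_mem hT))
      have hSS : S ∈ 𝒮 := hD S (Finset.mem_insert_self _ _)
      obtain ⟨s, hs, h3⟩ := exists_inner hSS l (hl S hSS) x hx
      refine ⟨n * s, mul_mem hn (le_sSup hSS hs), ?_, ?_⟩
      · intro T hT y hy
        rcases Finset.mem_insert.mp hT with rfl | hT'
        · have h4 : s * y * s⁻¹ ∈ T := mul_mem (mul_mem hs hy) (inv_mem hs)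
          have h5 := h2 T hSS hSD _ h4
          rw [h3 y hy]
          calc s * y * s⁻¹ = (s * y * s⁻¹ * n) * n⁻¹ := by group
            _ = (n * (s * y * s⁻¹)) * n⁻¹ := by rw [h5]
            _ = n * s * y * (n * s)⁻¹ := by group
        · have hne : S ≠ T := by
            rintro rfl
            exact hSD hT'
          have h4 : s * y = y * s := hS.comm S hSS T (hD T hT) hne s hs y hy
          rw [h1 T hT' y hy]
          calc n * y * n⁻¹ = n * (y * s) * s⁻¹ * n⁻¹ := by group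
            _ = n * (s * y) * s⁻¹ * n⁻¹ := by rw [h4]
            _ = n * s * y * (n * s)⁻¹ := by group
      · intro T hT hTn y hy
        have hTS : S ≠ T := by
          rintro rfl
          exact hTn (Finset.mem_insert_self _ _)
        have hTD : T ∉ 𝒟 := fun h => hTn (Finset.mem_insert_of_mem h)
        have h4 : s * y = y * s := hS.comm S hSS T hT hTS s hs y hy
        have h5 : n * y = y * n := h2 T hT hTD y hy
        rw [mul_assoc, h4, ← mul_assoc, h5, mul_assoc]
  obtain ⟨n, hn, h1, -⟩ := key hfin.toFinset (fun S h => hfin.mem_toFinset.mp h)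
  have h2 : n⁻¹ * (x : X) = 1 := by
    apply hS.cent
    intro S hSS a ha
    have h3 := h1 S (hfin.mem_toFinset.mpr hSS) a ha
    have h4 : (x : X) * a = n * a * n⁻¹ * x := by
      rw [← h3]
      group
    rw [mul_assoc, h4]
    group
  have h3 : (x : X) = n := by
    have := inv_mul_eq_one.mp h2
    exact this.symm
  have h4 : (ker X 𝒮).subtype x = n := h3
  rw [h4]
  exact hn

end Pool.Agent.H59.RK
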