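import Mathlib
import Pool.Agent.H30.RK.Stm

/-!
# Module PERM of project RK (statement by helper30)
-/

set_option autoImplicit false

namespace Pool.Agent.H59.RK

open Pool.Agent.H30.RK

/-- the number of orbits of the subgroup `A` on `Ω` -/
noncomputable def orbs (X Ω : Type) [Group X] [MulAction X Ω] (A : Subgroup X) : ℕ :=
  Nat.card (MulAction.orbitRel.Quotient A Ω)

theorem orbits_eq {X Ω : Type} [Group X] [Finite Ω] [MulAction X Ω] {A A' : Subgroup X}
    (hA : A ≤ A') (h : orbs X Ω A ≤ orbs X Ω A') (a' : X) (ha' : a' ∈ A') (ω : Ω) :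
    ∃ a ∈ A, a • ω = a' • ω := by
  let f : MulAction.orbitRel.Quotient A Ω → MulAction.orbitRel.Quotient A' Ω :=
    Quotient.map' id (by
      intro x y hxy
      obtain ⟨a, ha⟩ := hxy
      exact ⟨⟨a, hA a.2⟩, ha⟩)
  have hsurj : Function.Surjective f := by
    intro q
    induction q using Quotient.inductionOn' with
    | h x => exact ⟨Quotient.mk'' x, rfl⟩
  have hbij := hsurj.bijective_of_nat_card_le h
  have h1 : f (Quotient.mk'' (a' • ω)) = f (Quotient.mk'' ω) := by
    apply Quotient.sound'
    exact ⟨⟨a', ha'⟩, rfl⟩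
  have h2 := hbij.1 h1
  have h3 := Quotient.exact' h2
  obtain ⟨a, ha⟩ := h3
  exact ⟨a, a.2, ha⟩

theorem generate_step {X Ω : Type} [Group X] [Finite Ω] [MulAction X Ω] (B : Subgroup X)
    (α : Ω) : ∀ (n : ℕ) (A : Subgroup X), A ≤ B → (∀ b ∈ B, b • α = α → b ∈ A) →
      orbs X Ω A = n → ∃ s : Finset X, s.card + orbs X Ω B ≤ n ∧
        A ⊔ Subgroup.closure (s : Set X) = B := by
  classical
  intro n
  induction n using Nat.strong_induction_on with
  | _ n ih =>
    intro A hAB hst hn
    by_cases hEq : A = B
    · refine ⟨∅, ?_, ?_⟩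
      · rw [← hEq, hn]
        simp
      · simp [hEq]
    · obtain ⟨g, hgB, hgA⟩ : ∃ g ∈ B, g ∉ A := by
        by_contra hcon
        push Not at hcon
        exact hEq (le_antisymm hAB hcon)
      have hA' : A ≤ A ⊔ Subgroup.closure {g} := le_sup_left
      have hgA' : g ∈ A ⊔ Subgroup.closure {g} :=
        (le_sup_right : Subgroup.closure {g} ≤ A ⊔ Subgroup.closure {g})
          (Subgroup.subset_closure rfl)
      have hA'B : A ⊔ Subgroup.closure {g} ≤ B := by
        refine sup_le hAB ?_
        rw [Subgroup.closure_le]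
        intro x hx
        rw [Set.mem_singleton_iff] at hx
        rw [hx]
        exact hgB
      have hlt : orbs X Ω (A ⊔ Subgroup.closure {g}) < n := by
        by_contra hcon
        push Not at hcon
        obtain ⟨a, ha, hag⟩ := orbits_eq hA' (hn.trans_le hcon) g hgA' α
        apply hgA
        have h1 : a⁻¹ * g ∈ A := by
          apply hst
          · exact mul_mem (inv_mem (hAB ha)) hgB
          · rw [mul_smul, ← hag, inv_smul_smul]
        have h2 := mul_mem ha h1
        rwa [mul_inv_cancel_left] at h2
      obtain ⟨s, hs1, hs2⟩ := ih _ hlt (A ⊔ Subgroup.closure {g}) hA'B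
        (fun b hb hbα => hA' (hst b hb hbα)) rfl
      refine ⟨insert g s, ?_, ?_⟩
      · have := Finset.card_insert_le g s
        omega
      · rw [Finset.coe_insert, Set.insert_eq, Subgroup.closure_union, ← sup_assoc]
        exact hs2

theorem perm : S_PERM := by
  intro X _ _ Ω _ _
  classical
  have : Fintype Ω := Fintype.ofFinite Ω
  -- the pointwise stabilizer of the complement of `Δ`
  let G : Finset Ω → Subgroup X := fun Δ =>
    { carrier := {x | ∀ ω : Ω, ω ∉ Δ → x • ω = ω}
      mul_mem' := by
        intro x y hx hy ω hω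
        rw [mul_smul, hy ω hω, hx ω hω]
      one_mem' := by
        intro ω _
        exact one_smul _ _
      inv_mem' := by
        intro x hx ω hω
        rw [inv_smul_eq_iff]
        exact (hx ω hω).symm }
  have hG : ∀ (Δ : Finset Ω) (x : X), x ∈ G Δ ↔ ∀ ω : Ω, ω ∉ Δ → x • ω = ω := by
    intro Δ x
    rfl
  have key : ∀ Δ : Finset Ω, ∃ s : Finset X, s.card + orbs X Ω (G Δ) ≤ Nat.card Ω ∧
      Subgroup.closure (s : Set X) ⊔ (MulAction.toPermHom X Ω).ker = G Δ := by
    intro Δ
    induction Δ using Finset.induction_on with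
    | empty =>
      refine ⟨∅, ?_, ?_⟩
      · have h1 : orbs X Ω (G ∅) ≤ Nat.card Ω := by
          apply Nat.card_le_card_of_surjective
            (fun ω : Ω => (Quotient.mk'' ω : MulAction.orbitRel.Quotient (G ∅) Ω))
          intro q
          induction q using Quotient.inductionOn' with
          | h x => exact ⟨x, rfl⟩
        simpa using h1
      · ext x
        simp only [Finset.coe_empty, Subgroup.closure_empty, bot_sup_eq]
        rw [hG, MonoidHom.mem_ker, Equiv.Perm.ext_iff]
        simp
    | insert α Δ hα ih =>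
      obtain ⟨s, hs1, hs2⟩ := ih
      have hle : G Δ ≤ G (insert α Δ) := by
        intro x hx ω hω
        exact hx ω (fun h => hω (Finset.mem_insert_of_mem h))
      have hst : ∀ b ∈ G (insert α Δ), b • α = α → b ∈ G Δ := by
        intro b hb hbα ω hω
        by_cases h : ω = α
        · rw [h]
          exact hbα
        · apply hb
          intro h'
          rcases Finset.mem_insert.mp h' with h1 | h1
          · exact h h1
          · exact hω h1
      obtain ⟨s', hs1', hs2'⟩ := generate_step (G (insert α Δ)) α _ (G Δ) hle hst rfl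
      refine ⟨s ∪ s', ?_, ?_⟩
      · have := Finset.card_union_le s s'
        omega
      · rw [Finset.coe_union, Subgroup.closure_union, sup_right_comm, hs2]
        exact hs2'
  obtain ⟨s, hs1, hs2⟩ := key Finset.univ
  refine ⟨s, by omega, ?_⟩
  rw [Subgroup.closure_union, Subgroup.closure_eq, hs2]
  rw [eq_top_iff]
  intro x _ ω hω
  exact absurd (Finset.mem_univ ω) hω

end Pool.Agent.H59.RK
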